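import Pool.Agent.Lib.MP_6bc78b_nt.MS.L.Iface

/-! Project MS, Part IIIa, module MNA (helper45): the prime terms. -/

set_option autoImplicit false

open Filter Topology ArithmeticFunction

namespace Pool.Agent.Lib.MP_6bc78b_nt.MS.L.H45

open Pool.Agent.Lib.MP_6bc78b_nt.MS Pool.Agent.Lib.MP_6bc78b_nt.MS.L

/-- The test function. -/
noncomputable def fA (c1 c2 th z u : ℝ) : ℝ := PP c1 c2 (z - u / th)

/-- Its derivative. -/
noncomputable def fA' (c1 c2 th z u : ℝ) : ℝ := -(c1 + 2 * c2 * (z - u / th)) / th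

lemma hasDerivAt_arg (th z u : ℝ) : HasDerivAt (fun u : ℝ => z - u / th) (-(1 / th)) u := by
  have h1 := ((hasDerivAt_id u).div_const th).const_sub z
  simpa using h1

lemma hasDerivAt_fA (c1 c2 th z u : ℝ) :
    HasDerivAt (fA c1 c2 th z) (fA' c1 c2 th z u) u := by
  have h := hasDerivAt_arg th z u
  have h1 := (h.const_mul c1).add ((h.pow 2).const_mul c2)
  have h2 : HasDerivAt (fA c1 c2 th z)
      (c1 * -(1 / th) + c2 * (((2 : ℕ) : ℝ) * (z - u / th) ^ (2 - 1) * -(1 / th))) u := h1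
  convert h2 using 1
  unfold fA'
  push_cast
  ring

lemma abs_PP_le {c1 c2 x : ℝ} (h0 : 0 ≤ x) (h1 : x ≤ 1) : |PP c1 c2 x| ≤ |c1| + |c2| := by
  unfold PP
  calc |c1 * x + c2 * x ^ 2| ≤ |c1 * x| + |c2 * x ^ 2| := abs_add_le _ _
    _ = |c1| * x + |c2| * x ^ 2 := by
        rw [abs_mul, abs_mul, abs_of_nonneg h0, abs_of_nonneg (pow_nonneg h0 2)]
    _ ≤ |c1| * 1 + |c2| * 1 := by
        have h2 : x ^ 2 ≤ 1 := pow_le_one₀ h0 h1
        have := abs_nonneg c1
        have := abs_nonneg c2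
        gcongr
    _ = |c1| + |c2| := by ring

lemma arg_mem {th z u : ℝ} (hth : 0 < th) (hz : z ≤ 1) (hu : u ∈ Set.Icc 0 (th * z)) :
    0 ≤ z - u / th ∧ z - u / th ≤ 1 := by
  have h1 : u / th ≤ z := by rw [div_le_iff₀ hth]; linarith [hu.2, mul_comm th z]
  have h2 : 0 ≤ u / th := div_nonneg hu.1 hth.le
  exact ⟨by linarith, by linarith⟩

lemma abs_fA'_le {c1 c2 th z u : ℝ} (hth : 0 < th) (hz : z ≤ 1) (hu : u ∈ Set.Icc 0 (th * z)) :
    |fA' c1 c2 th z u| ≤ (|c1| + 2 * |c2|) / th := by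
  obtain ⟨h0, h1⟩ := arg_mem hth hz hu
  unfold fA'
  rw [abs_div, abs_of_pos hth, abs_neg]
  gcongr
  calc |c1 + 2 * c2 * (z - u / th)| ≤ |c1| + |2 * c2 * (z - u / th)| := abs_add_le _ _
    _ = |c1| + 2 * |c2| * (z - u / th) := by
        rw [abs_mul, abs_mul, abs_of_nonneg h0, abs_of_pos (by norm_num : (0 : ℝ) < 2)]
    _ ≤ |c1| + 2 * |c2| * 1 := by
        have := abs_nonneg c2
        gcongr
    _ = |c1| + 2 * |c2| := by ring

lemma integral_fA (c1 c2 z : ℝ) {th : ℝ} (hth : 0 < th) :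
    ∫ u in (0 : ℝ)..(th * z), fA c1 c2 th z u = th * (c1 * z ^ 2 / 2 + c2 * z ^ 3 / 3) := by
  have hd : ∀ u ∈ Set.uIcc 0 (th * z), HasDerivAt
      (fun u : ℝ => -th * (c1 * (z - u / th) ^ 2 / 2 + c2 * (z - u / th) ^ 3 / 3))
      (fA c1 c2 th z u) u := by
    intro u _
    have h := hasDerivAt_arg th z u
    have h1 := ((((h.pow 2).const_mul c1).div_const 2).add
      (((h.pow 3).const_mul c2).div_const 3)).const_mul (-th)
    have h2 : HasDerivAt
        (fun u : ℝ => -th * (c1 * (z - u / th) ^ 2 / 2 + c2 * (z - u / th) ^ 3 / 3))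
        (-th * (c1 * (((2 : ℕ) : ℝ) * (z - u / th) ^ (2 - 1) * -(1 / th)) / 2 +
          c2 * (((3 : ℕ) : ℝ) * (z - u / th) ^ (3 - 1) * -(1 / th)) / 3)) u := h1
    have e : -th * (c1 * (((2 : ℕ) : ℝ) * (z - u / th) ^ (2 - 1) * -(1 / th)) / 2 +
          c2 * (((3 : ℕ) : ℝ) * (z - u / th) ^ (3 - 1) * -(1 / th)) / 3) =
        fA c1 c2 th z u := by
      have e3 : th * (1 / th) = 1 := by field_simp
      unfold fA PP
      simp only [show (2 : ℕ) - 1 = 1 from rfl, show (3 : ℕ) - 1 = 2 from rfl]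
      push_cast
      linear_combination (c1 * (z - u / th) + c2 * (z - u / th) ^ 2) * e3
    rw [← e]
    exact h2
  have hc : IntervalIntegrable (fA c1 c2 th z) MeasureTheory.volume 0 (th * z) := by
    apply Continuous.intervalIntegrable
    unfold fA PP
    fun_prop
  rw [intervalIntegral.integral_eq_sub_of_hasDerivAt hd hc]
  have h1 : z - th * z / th = 0 := by field_simp; ring
  simp only [h1]
  simp

lemma integral_ufA (c1 c2 z : ℝ) {th : ℝ} (hth : 0 < th) :
    ∫ u in (0 : ℝ)..(th * z), u * fA c1 c2 th z u = th ^ 2 * (c1 * z ^ 3 / 6 + c2 * z ^ 4 / 12) := by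
  have hd : ∀ u ∈ Set.uIcc 0 (th * z), HasDerivAt
      (fun u : ℝ => u * (-th * (c1 * (z - u / th) ^ 2 / 2 + c2 * (z - u / th) ^ 3 / 3)) -
        th ^ 2 * (c1 * (z - u / th) ^ 3 / 6 + c2 * (z - u / th) ^ 4 / 12))
      (u * fA c1 c2 th z u) u := by
    intro u _
    have h := hasDerivAt_arg th z u
    have h1 := ((((h.pow 2).const_mul c1).div_const 2).add
      (((h.pow 3).const_mul c2).div_const 3)).const_mul (-th)
    have h2 := (hasDerivAt_id u).mul h1
    have h3 := ((((h.pow 3).const_mul c1).div_const 6).add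
      (((h.pow 4).const_mul c2).div_const 12)).const_mul (th ^ 2)
    have h4 := h2.sub h3
    have h5 : HasDerivAt
        (fun u : ℝ => u * (-th * (c1 * (z - u / th) ^ 2 / 2 + c2 * (z - u / th) ^ 3 / 3)) -
          th ^ 2 * (c1 * (z - u / th) ^ 3 / 6 + c2 * (z - u / th) ^ 4 / 12))
        ((1 * (-th * (c1 * (z - u / th) ^ 2 / 2 + c2 * (z - u / th) ^ 3 / 3)) +
          u * (-th * (c1 * (((2 : ℕ) : ℝ) * (z - u / th) ^ (2 - 1) * -(1 / th)) / 2 +
          c2 * (((3 : ℕ) : ℝ) * (z - u / th) ^ (3 - 1) * -(1 / th)) / 3))) -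
         th ^ 2 * (c1 * (((3 : ℕ) : ℝ) * (z - u / th) ^ (3 - 1) * -(1 / th)) / 6 +
          c2 * (((4 : ℕ) : ℝ) * (z - u / th) ^ (4 - 1) * -(1 / th)) / 12)) u := h4
    have e : ((1 * (-th * (c1 * (z - u / th) ^ 2 / 2 + c2 * (z - u / th) ^ 3 / 3)) +
          u * (-th * (c1 * (((2 : ℕ) : ℝ) * (z - u / th) ^ (2 - 1) * -(1 / th)) / 2 +
          c2 * (((3 : ℕ) : ℝ) * (z - u / th) ^ (3 - 1) * -(1 / th)) / 3))) -
         th ^ 2 * (c1 * (((3 : ℕ) : ℝ) * (z - u / th) ^ (3 - 1) * -(1 / th)) / 6 +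
          c2 * (((4 : ℕ) : ℝ) * (z - u / th) ^ (4 - 1) * -(1 / th)) / 12)) =
        u * fA c1 c2 th z u := by
      have e3 : th * (1 / th) = 1 := by field_simp
      unfold fA PP
      simp only [show (2 : ℕ) - 1 = 1 from rfl, show (3 : ℕ) - 1 = 2 from rfl,
        show (4 : ℕ) - 1 = 3 from rfl]
      push_cast
      linear_combination (u * (c1 * (z - u / th) + c2 * (z - u / th) ^ 2) +
        th * (c1 * (z - u / th) ^ 2 / 2 + c2 * (z - u / th) ^ 3 / 3)) * e3
    rw [← e]
    exact h5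
  have hc : IntervalIntegrable (fun u => u * fA c1 c2 th z u) MeasureTheory.volume 0 (th * z) := by
    apply Continuous.intervalIntegrable
    unfold fA PP
    fun_prop
  rw [intervalIntegral.integral_eq_sub_of_hasDerivAt hd hc]
  have h1 : z - th * z / th = 0 := by field_simp; ring
  simp only [h1]
  simp

/-- Leaving out the prime `q`. -/
lemma sum_coprime (M q : ℕ) (hq : q = 1 ∨ q.Prime) (g : ℕ → ℝ) (B : ℝ) (hB0 : 0 ≤ B)
    (hB : ∀ p ∈ Finset.Icc 1 M, p.Prime → |g p| ≤ B) :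
    |∑ p ∈ (Finset.Icc 1 M).filter (fun p => p.Prime ∧ Nat.Coprime p q), g p -
      ∑ p ∈ (Finset.Icc 1 M).filter (fun p => p.Prime), g p| ≤ B := by
  have h1 : (Finset.Icc 1 M).filter (fun p => p.Prime) =
      (Finset.Icc 1 M).filter (fun p => p.Prime ∧ Nat.Coprime p q) ∪
      (Finset.Icc 1 M).filter (fun p => p.Prime ∧ ¬ Nat.Coprime p q) := by
    ext p
    simp only [Finset.mem_filter, Finset.mem_union]
    tauto
  have h2 : Disjoint ((Finset.Icc 1 M).filter (fun p => p.Prime ∧ Nat.Coprime p q))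
      ((Finset.Icc 1 M).filter (fun p => p.Prime ∧ ¬ Nat.Coprime p q)) := by
    rw [Finset.disjoint_left]
    intro p hp hp'
    simp only [Finset.mem_filter] at hp hp'
    exact hp'.2.2 hp.2.2
  rw [h1, Finset.sum_union h2]
  have h3 : ((Finset.Icc 1 M).filter (fun p => p.Prime ∧ ¬ Nat.Coprime p q)).card ≤ 1 := by
    rw [Finset.card_le_one]
    intro a ha b hb
    simp only [Finset.mem_filter] at ha hb
    rcases hq with rfl | hq
    · exact absurd (Nat.coprime_one_right a) ha.2.2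
    · have e1 : a = q := by
        by_contra h
        exact ha.2.2 ((Nat.coprime_primes ha.2.1 hq).2 h)
      have e2 : b = q := by
        by_contra h
        exact hb.2.2 ((Nat.coprime_primes hb.2.1 hq).2 h)
      rw [e1, e2]
  have h4 : |∑ p ∈ (Finset.Icc 1 M).filter (fun p => p.Prime ∧ ¬ Nat.Coprime p q), g p| ≤ B := by
    refine (Finset.abs_sum_le_sum_abs _ _).trans ?_
    refine (Finset.sum_le_card_nsmul _ _ B fun p hp => ?_).trans ?_
    · simp only [Finset.mem_filter] at hp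
      exact hB p hp.1 hp.2.1
    · rw [nsmul_eq_mul]
      have : (((Finset.Icc 1 M).filter (fun p => p.Prime ∧ ¬ Nat.Coprime p q)).card : ℝ) ≤ 1 := by
        exact_mod_cast h3
      nlinarith
  rw [show ∀ x y : ℝ, x - (x + y) = -y from fun x y => by ring, abs_neg]
  exact h4

lemma w2_sum (M : ℕ) (g : ℕ → ℝ) :
    ∑ p ∈ (Finset.Icc 1 M).filter (fun p => p.Prime), g p * (Real.log p / ((p : ℝ) - 1)) =
      ∑ n ∈ Finset.Icc 1 M, w2 n * g n := by
  rw [Finset.sum_filter]
  refine Finset.sum_congr rfl fun n _ => ?_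
  unfold w2
  split_ifs
  · ring
  · ring

lemma logdiv_le {p : ℕ} (hp : p.Prime) :
    0 ≤ Real.log p / ((p : ℝ) - 1) ∧ Real.log p / ((p : ℝ) - 1) ≤ 1 := by
  have h2 : (2 : ℝ) ≤ p := by exact_mod_cast hp.two_le
  have h3 := Real.log_le_sub_one_of_pos (show (0 : ℝ) < p by linarith)
  have h4 : 0 ≤ Real.log p := Real.log_nonneg (by linarith)
  refine ⟨div_nonneg h4 (by linarith), ?_⟩
  rw [div_le_one (by linarith)]
  exact h3

theorem mna (hm : MerStatement) (h : Ps1Statement) : MnaStatement := by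
  intro th c1 c2 hth hth2
  obtain ⟨C0, hC0, -, hw2, -⟩ := hm
  set B : ℝ := |c1| + |c2| with hBd
  set Kf : ℝ := (|c1| + 2 * |c2|) / th + (2 * |c1| + 3 * |c2|) with hKf
  have hc1 := abs_nonneg c1
  have hc2 := abs_nonneg c2
  have hB0 : 0 ≤ B := by positivity
  have hq0 : 0 ≤ (|c1| + 2 * |c2|) / th := by positivity
  have hBK : B ≤ Kf := by rw [hBd, hKf]; linarith
  refine ⟨2 * C0 * Kf + B + 1, by positivity, ?_⟩
  filter_upwards [eventually_ge_atTop (Real.exp 1)] with T hT q hq c z hc hcT hz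
  have hT0 : 0 < T := (Real.exp_pos 1).trans_le hT
  set L : ℝ := Real.log T with hL
  have hL1 : 1 ≤ L := by
    rw [hL, ← Real.log_exp 1]
    exact Real.log_le_log (Real.exp_pos 1) hT
  have hL0 : 0 < L := by linarith
  have hthL : 0 < th * L := by positivity
  have hc0 : 0 < c := by linarith
  have hlc0 : 0 ≤ Real.log c := Real.log_nonneg hc
  have hTth : T ^ th = Real.exp (th * L) := by
    rw [Real.rpow_def_of_pos hT0, mul_comm]
  have hlcT : Real.log c ≤ th * L := by
    have := Real.log_le_log hc0 hcT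
    rwa [hTth, Real.log_exp] at this
  have hz0 : 0 ≤ z := by
    rw [hz, sub_nonneg, div_le_one hthL]; exact hlcT
  have hz1 : z ≤ 1 := by
    rw [hz]
    have : 0 ≤ Real.log c / (th * L) := by positivity
    linarith
  have ht0 : 0 ≤ th * z := by positivity
  have ht1 : th * z ≤ 1 := by nlinarith
  have hexp : Real.exp (th * z * L) = T ^ th / c := by
    rw [hTth, hz]
    have : th * (1 - Real.log c / (th * L)) * L = th * L - Real.log c := by
      field_simp
    rw [this, Real.exp_sub, Real.exp_log hc0]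
  have harg : ∀ n : ℕ, 1 - (Real.log n + Real.log c) / (th * L) = z - (Real.log n / L) / th := by
    intro n
    rw [hz]
    field_simp
    ring
  set M : ℕ := ⌊T ^ th / c⌋₊ with hM
  have hmem : ∀ p ∈ Finset.Icc 1 M, 0 ≤ Real.log p ∧ Real.log p ≤ th * L - Real.log c := by
    intro p hp
    rw [Finset.mem_Icc] at hp
    have h1 : (1 : ℝ) ≤ p := by exact_mod_cast hp.1
    have h2 : (p : ℝ) ≤ T ^ th / c := by
      have h3 : 0 ≤ T ^ th / c := by positivity
      exact (Nat.le_floor_iff h3).1 hp.2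
    refine ⟨Real.log_nonneg h1, ?_⟩
    have h4 := Real.log_le_log (by linarith) h2
    rw [Real.log_div (by positivity) hc0.ne', hTth, Real.log_exp] at h4
    exact h4
  have hPP : ∀ p ∈ Finset.Icc 1 M, |PP c1 c2 (1 - (Real.log p + Real.log c) / (th * L))| ≤ B := by
    intro p hp
    obtain ⟨h1, h2⟩ := hmem p hp
    apply abs_PP_le
    · rw [sub_nonneg, div_le_one hthL]; linarith
    · have : 0 ≤ (Real.log p + Real.log c) / (th * L) := by positivity
      linarith
  -- bounds for the test functions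
  have hf1 : ∀ u ∈ Set.Icc 0 (th * z), |fA c1 c2 th z u| ≤ Kf := by
    intro u hu
    obtain ⟨h0, h1⟩ := arg_mem hth hz1 hu
    exact (abs_PP_le h0 h1).trans hBK
  have hf1' : ∀ u ∈ Set.Icc 0 (th * z), |fA' c1 c2 th z u| ≤ Kf := by
    intro u hu
    refine (abs_fA'_le hth hz1 hu).trans ?_
    rw [hKf]; linarith
  have hf2 : ∀ u ∈ Set.Icc 0 (th * z), |u * fA c1 c2 th z u| ≤ Kf := by
    intro u hu
    obtain ⟨h0, h1⟩ := arg_mem hth hz1 hu
    rw [abs_mul, abs_of_nonneg hu.1]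
    have h2 : u ≤ 1 := hu.2.trans ht1
    have h3 : |fA c1 c2 th z u| ≤ B := abs_PP_le h0 h1
    have h4 := abs_nonneg (fA c1 c2 th z u)
    nlinarith [hu.1]
  have hf2' : ∀ u ∈ Set.Icc 0 (th * z), |fA c1 c2 th z u + u * fA' c1 c2 th z u| ≤ Kf := by
    intro u hu
    obtain ⟨h0, h1⟩ := arg_mem hth hz1 hu
    have h3 : |fA c1 c2 th z u| ≤ B := abs_PP_le h0 h1
    have h4 := abs_fA'_le (c1 := c1) (c2 := c2) hth hz1 hu
    have h5 : u ≤ th := hu.2.trans (by nlinarith)
    have h6 : |u * fA' c1 c2 th z u| ≤ |c1| + 2 * |c2| := by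
      rw [abs_mul, abs_of_nonneg hu.1]
      calc u * |fA' c1 c2 th z u| ≤ th * ((|c1| + 2 * |c2|) / th) :=
            mul_le_mul h5 h4 (abs_nonneg _) hth.le
        _ = |c1| + 2 * |c2| := by field_simp
    refine (abs_add_le _ _).trans ?_
    rw [hKf]
    linarith
  have hcf' : Continuous (fA' c1 c2 th z) := by
    unfold fA'; fun_prop
  have hcf2' : Continuous (fun u => fA c1 c2 th z u + u * fA' c1 c2 th z u) := by
    unfold fA fA' PP; fun_prop
  have hd2 : ∀ u, HasDerivAt (fun u => u * fA c1 c2 th z u)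
      (fA c1 c2 th z u + u * fA' c1 c2 th z u) u := by
    intro u
    have h1 := (hasDerivAt_id' u).mul (hasDerivAt_fA c1 c2 th z u)
    have h2 : HasDerivAt (fun u => u * fA c1 c2 th z u)
      (1 * fA c1 c2 th z u + u * fA' c1 c2 th z u) u := h1
    rw [one_mul] at h2
    exact h2
  have P1 := h w2 C0 hC0.le hw2 L (th * z) Kf (fA c1 c2 th z) (fA' c1 c2 th z) hL1 ht0 ht1
    (hasDerivAt_fA c1 c2 th z) hcf' hf1 hf1'
  have P2 := h w2 C0 hC0.le hw2 L (th * z) Kf (fun u => u * fA c1 c2 th z u)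
    (fun u => fA c1 c2 th z u + u * fA' c1 c2 th z u) hL1 ht0 ht1 hd2 hcf2' hf2 hf2'
  rw [hexp, integral_fA c1 c2 z hth] at P1
  rw [hexp, integral_ufA c1 c2 z hth] at P2
  constructor
  · set g : ℕ → ℝ := fun p => PP c1 c2 (1 - (Real.log p + Real.log c) / (th * L)) *
      (Real.log p / ((p : ℝ) - 1)) with hg
    have S1 := sum_coprime M q hq g B hB0 (fun p hp hpp => by
      obtain ⟨h1, h2⟩ := logdiv_le hpp
      simp only [hg, abs_mul, abs_of_nonneg h1]
      have h3 := hPP p hp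
      have h4 := abs_nonneg (PP c1 c2 (1 - (Real.log p + Real.log c) / (th * L)))
      nlinarith)
    have S2 : ∑ p ∈ (Finset.Icc 1 M).filter (fun p => p.Prime), g p =
        ∑ n ∈ Finset.Icc 1 M, w2 n * fA c1 c2 th z (Real.log n / L) := by
      simp only [hg]
      rw [w2_sum M (fun p => PP c1 c2 (1 - (Real.log p + Real.log c) / (th * L)))]
      refine Finset.sum_congr rfl fun n _ => ?_
      rw [harg n]; rfl
    rw [S2] at S1
    have h5 := abs_le.1 S1
    have h6 := abs_le.1 P1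
    rw [abs_le]
    constructor <;> linarith
  · set g : ℕ → ℝ := fun p => PP c1 c2 (1 - (Real.log p + Real.log c) / (th * L)) *
      (Real.log p ^ 2 / ((p : ℝ) - 1)) with hg
    have S1 := sum_coprime M q hq g (B * L) (by positivity) (fun p hp hpp => by
      obtain ⟨h1, h2⟩ := logdiv_le hpp
      obtain ⟨h7, h8⟩ := hmem p hp
      have e1 : Real.log p ^ 2 / ((p : ℝ) - 1) = Real.log p * (Real.log p / ((p : ℝ) - 1)) := by
        ring
      have h9 : Real.log p ≤ L := by nlinarith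
      have h10 : Real.log p * (Real.log p / ((p : ℝ) - 1)) ≤ L := by nlinarith
      have h11 : 0 ≤ Real.log p * (Real.log p / ((p : ℝ) - 1)) := by positivity
      simp only [hg, abs_mul, e1]
      rw [← abs_mul, abs_mul, abs_of_nonneg h7, abs_of_nonneg h1]
      exact mul_le_mul (hPP p hp) h10 h11 hB0)
    have S2 : ∑ p ∈ (Finset.Icc 1 M).filter (fun p => p.Prime), g p =
        L * ∑ n ∈ Finset.Icc 1 M, w2 n * (fun u => u * fA c1 c2 th z u) (Real.log n / L) := by
      have e2 : ∀ p : ℕ, g p = (PP c1 c2 (1 - (Real.log p + Real.log c) / (th * L)) *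
          Real.log p) * (Real.log p / ((p : ℝ) - 1)) := by
        intro p; simp only [hg]; ring
      rw [Finset.sum_congr rfl (fun p _ => e2 p), w2_sum M (fun p =>
        PP c1 c2 (1 - (Real.log p + Real.log c) / (th * L)) * Real.log p), Finset.mul_sum]
      refine Finset.sum_congr rfl fun n _ => ?_
      rw [harg n]
      simp only [fA]
      field_simp
    rw [S2] at S1
    have h5 := abs_le.1 S1
    have h6 := abs_le.1 P2
    set X := ∑ n ∈ Finset.Icc 1 M, w2 n * (fun u => u * fA c1 c2 th z u) (Real.log n / L)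
    set Y := th ^ 2 * (c1 * z ^ 3 / 6 + c2 * z ^ 4 / 12)
    have h7 : |L * X - L * (L * Y)| ≤ L * (2 * C0 * Kf) := by
      rw [← mul_sub, abs_mul, abs_of_pos hL0]
      exact mul_le_mul_of_nonneg_left P2 hL0.le
    have h8 := abs_le.1 h7
    rw [abs_le]
    constructor <;> nlinarith
end Pool.Agent.Lib.MP_6bc78b_nt.MS.L.H45
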